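import Mathlib
import Pool.Agent.H15.HG.Settled

set_option autoImplicit false

/-!
# The SHGH conjecture for the closure of the known classes under composition, collisions, quadratic
# transformations and doubling

General points of the complex projective plane. `Settled d M` is the smallest class of pairs of a degree
`d` and a multiset `M` of multiplicities which contains the regular vectors, the near-uniform vectors in
almost all degrees, the classes above the Nagata bound, several windows of degrees for arbitrary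
multiplicities, and which is closed under composition (`matching`), collisions, quadratic
transformations, doubling, and the obvious operations.

Every settled class, and every class which finitely many reflections carry to a settled standard class,
has `h⁰ = max (0, χ)` at general points. For every class `D` and general points at least one of the
following holds: `h⁰ (D) = max (0, χ)`; some `(-1)`-curve `C` has `C D ≤ -2`; or `D`, after the removal
of disjoint `(-1)`-curves, each taken once, and finitely many quadratic transformations, is a standard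
class with the same `h⁰`, different from `max (0, χ)`, which is not settled.
-/

namespace Pool.Agent.Results.MP_70e04f_ag.CompositionClosure

open MvPolynomial Pool.Agent.TH167.SHDefs Pool.Agent.H15.HG

/-- `h⁰ (D)` for the class `D = d H - ∑ w i E i`: the dimension of the space of the forms of degree `d`
vanishing to order at least `w i` at the points `(P i 0 : P i 1 : 1)`. -/
noncomputable def hZero {n : ℕ} (P : Fin n → Fin 2 → ℂ) (d : ℕ) (w : Fin n → ℕ) : ℤ :=
  (Module.finrank ℂ ↥(sys P d w) : ℤ)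

/-- The Euler characteristic. -/
def chi {n : ℕ} (d : ℕ) (w : Fin n → ℕ) : ℤ :=
  ((d + 2).choose 2 : ℤ) - ∑ i, ((w i + 1).choose 2 : ℤ)

/-- The property holds for all `n`-tuples of points outside some hypersurface. -/
def ForGeneral {n : ℕ} (p : (Fin n → Fin 2 → ℂ) → Prop) : Prop :=
  ∃ F : MvPolynomial (Fin n × Fin 2) ℂ, F ≠ 0 ∧ ∀ P : Fin n → Fin 2 → ℂ,
    eval (fun ij : Fin n × Fin 2 => P ij.1 ij.2) F ≠ 0 → p P

/-- The reflection of the class `a = (d; w)`, `d H - ∑ w l E l`, in the class
`H - E (i 0) - E (i 1) - E (i 2)`: with `δ = d - w (i 0) - w (i 1) - w (i 2)`, the numbers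
`d`, `w (i 0)`, `w (i 1)`, `w (i 2)` are increased by `δ`. -/
def reflect {n : ℕ} (i : Fin 3 → Fin n) (a : ℤ × (Fin n → ℤ)) : ℤ × (Fin n → ℤ) :=
  (a.1 + (a.1 - a.2 (i 0) - a.2 (i 1) - a.2 (i 2)),
    fun l => a.2 l + if l = i 0 ∨ l = i 1 ∨ l = i 2 then a.1 - a.2 (i 0) - a.2 (i 1) - a.2 (i 2)
      else 0)

/-- Finitely many reflections carry `(d; w)` to `(d'; w')`. -/
def Carries {n : ℕ} (d : ℕ) (w : Fin n → ℕ) (d' : ℕ) (w' : Fin n → ℕ) : Prop :=
  Relation.ReflTransGen
    (fun a b : ℤ × (Fin n → ℤ) => ∃ i : Fin 3 → Fin n, Function.Injective i ∧ b = reflect i a)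
    ((d : ℤ), fun l => (w l : ℤ)) ((d' : ℤ), fun l => (w' l : ℤ))

/-- The class `(d; w)` is standard: `w i + w j + w l ≤ d` for all distinct `i`, `j`, `l`. -/
def Standard {n : ℕ} (d : ℕ) (w : Fin n → ℕ) : Prop :=
  ∀ i j l : Fin n, i ≠ j → i ≠ l → j ≠ l → w i + w j + w l ≤ d

/-- The class `(d; w)` is settled. -/
def SettledClass {n : ℕ} (d : ℕ) (w : Fin n → ℕ) : Prop :=
  Settled d ((Finset.univ : Finset (Fin n)).val.map w)

theorem hZero_of {n : ℕ} {P : Fin n → Fin 2 → ℂ} {d : ℕ} {w : Fin n → ℕ}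
    (h : Pool.Agent.H932R3.ExpDim ℂ w P d) : hZero P d w = max 0 (chi d w) := by
  have h1 : Module.finrank ℂ ↥(sys P d w) =
      Nat.choose (d + 2) 2 - ∑ i, Nat.choose (w i + 1) 2 := h
  have h2 : ∑ i, ((w i + 1).choose 2 : ℤ) = ((∑ i, Nat.choose (w i + 1) 2 : ℕ) : ℤ) := by
    push_cast
    rfl
  unfold hZero chi
  rw [h1, h2]
  omega

theorem special_of_ne {n : ℕ} {P : Fin n → Fin 2 → ℂ} {d : ℕ} {w : Fin n → ℕ} :
    hZero P d w ≠ max 0 (chi d w) ↔ Pool.Agent.TH167.SH.Special P d w := by
  unfold hZero Pool.Agent.TH167.SH.Special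
  rw [Pool.Agent.TH167.SH.sys_eq]
  exact Iff.rfl

theorem ge_of {n d : ℕ} {w : Fin n → ℕ} (h : SettledClass d w) : Pool.Agent.V11310.CL.GE d w := by
  refine ge_of_ns ?_
  rw [← ms_eq]
  exact ns_of_settled h

theorem exp_of {n d : ℕ} {w : Fin n → ℕ} (h : SettledClass d w) {K : Type} [Field K] [CharZero K]
    {P : Fin n → Fin 2 → K}
    (hP : AlgebraicIndependent ℚ (fun ij : Fin n × Fin 2 => P ij.1 ij.2)) :
    Pool.Agent.H932R3.ExpDim K w P d := ge_of h hP

/-- (1) Settled classes, and the classes in the orbits of the settled standard classes have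
`h⁰ = max (0, χ)`, and the trichotomy. (2) Composition: a point of multiplicity `b` or `b + 1` may be
replaced by a cluster `C` of points whose number of conditions is in between. -/
theorem result :
    (∀ n : ℕ, 4 ≤ n → ∀ (d : ℕ) (w : Fin n → ℕ), ForGeneral fun P =>
      (SettledClass d w → hZero P d w = max 0 (chi d w)) ∧
      ((∃ (d' : ℕ) (w' : Fin n → ℕ), Carries d w d' w' ∧ Standard d' w' ∧ SettledClass d' w') →
        hZero P d w = max 0 (chi d w)) ∧
      (hZero P d w = max 0 (chi d w) ∨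
        (∃ (G : MvPolynomial (Fin 3) ℂ) (e : ℕ) (u : Fin n → ℕ), MinusOne P G e u ∧
          inter d w e u ≤ -2) ∨
        ∃ (d'' : ℕ) (w'' : Fin n → ℕ) (k : ℕ) (G : Fin k → MvPolynomial (Fin 3) ℂ)
          (e : Fin k → ℕ) (u : Fin k → Fin n → ℕ) (d' : ℕ) (w' : Fin n → ℕ),
          Decomp P d w d'' w'' G e u (fun _ => 1) ∧
          Relation.ReflTransGen Quadratic (d'', w'') (d', w') ∧ Standard d' w' ∧
          hZero P d' w' = hZero P d w ∧ hZero P d' w' ≠ max 0 (chi d' w') ∧
          ¬ SettledClass d' w')) ∧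
    (∀ (d b : ℕ) (C M : Multiset ℕ), 1 ≤ b → Settled (b - 1) C → Settled b C →
      (b + 1).choose 2 ≤ conditions C → conditions C ≤ (b + 2).choose 2 →
      Settled d (b ::ₘ M) → Settled d ((b + 1) ::ₘ M) → Settled d (C + M)) := by
  refine ⟨fun n hn d w => ?_, fun d b C M hb h1 h2 lo hi h3 h4 =>
    Settled.compose hb h1 h2 lo hi h3 h4⟩
  obtain ⟨F0, hF0, hF0'⟩ : ForGeneral fun P : Fin n → Fin 2 → ℂ =>
      SettledClass d w → hZero P d w = max 0 (chi d w) := by
    by_cases h : SettledClass d w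
    · obtain ⟨F, hF, hF'⟩ := Pool.Agent.TH442.NF.to_open (d := d) (w := w)
        fun {_ _ _ P} hP => exp_of h hP
      refine ⟨F.map (algebraMap ℚ ℂ), Pool.Agent.H932R3.map_ne_zero_of hF, fun P hP _ => ?_⟩
      rw [MvPolynomial.eval_map] at hP
      exact hZero_of (hF' (L := ℂ) P hP)
    · exact ⟨1, one_ne_zero, fun P _ h' => absurd h' h⟩
  obtain ⟨F1, hF1, hF1'⟩ : ForGeneral fun P : Fin n → Fin 2 → ℂ =>
      (∃ (d' : ℕ) (w' : Fin n → ℕ), Carries d w d' w' ∧ Standard d' w' ∧ SettledClass d' w') →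
        hZero P d w = max 0 (chi d w) := by
    by_cases h : ∃ (d' : ℕ) (w' : Fin n → ℕ), Carries d w d' w' ∧ Standard d' w' ∧
        SettledClass d' w'
    · obtain ⟨d', w', hc, hs, hG⟩ := h
      obtain ⟨F, hF, hF'⟩ := Pool.Agent.TH442.NF.to_open (d := d) (w := w)
        fun {_ _ _ P} hP => Pool.Agent.TH442.NF.up_enef hP hc
          (Pool.Agent.TH442.NF.enef_of_std hn P hs) (exp_of hG hP)
      refine ⟨F.map (algebraMap ℚ ℂ), Pool.Agent.H932R3.map_ne_zero_of hF, fun P hP _ => ?_⟩
      rw [MvPolynomial.eval_map] at hP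
      exact hZero_of (hF' (L := ℂ) P hP)
    · exact ⟨1, one_ne_zero, fun P _ h' => absurd h' h⟩
  obtain ⟨r, rfl⟩ : ∃ r, n = r + 4 := ⟨n - 4, by omega⟩
  obtain ⟨F, hF, hF'⟩ := Pool.Agent.Y536.SH.hh_full
    (Q := fun d' w' => SettledClass d' w')
    (fun hP d1 w1 hr hG => exp_of hG hP) d w
  refine ⟨F0 * (F1 * F.map (algebraMap ℚ ℂ)),
    mul_ne_zero hF0 (mul_ne_zero hF1 (Pool.Agent.TH167.SH.map_ne hF)), fun P hP => ?_⟩
  rw [map_mul, map_mul] at hP
  have hP0 := left_ne_zero_of_mul hP
  have hP12 := right_ne_zero_of_mul hP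
  refine ⟨hF0' P hP0, hF1' P (left_ne_zero_of_mul hP12), ?_⟩
  have hP2 := right_ne_zero_of_mul hP12
  rw [Pool.Agent.TH167.SH.evP_eval] at hP2
  by_cases hs : hZero P d w = max 0 (chi d w)
  · exact Or.inl hs
  · right
    have hsp := special_of_ne.1 hs
    rcases hF' ℂ P hP2 hsp with h | ⟨d', w', k, C, e, u, N, d1, w1, h1, h2, h3, h4, h5, h6⟩
    · left
      exact Pool.Agent.TH167.SH.mspecial_curve ((Pool.Agent.TH167.SH.mspecial_conv P d w).2 h)
    · by_cases hN : ∃ a, 2 ≤ N a
      · left
        obtain ⟨a, ha⟩ := hN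
        refine ⟨C a, e a, u a, Pool.Agent.TH167.SH.minusOne_iff.2 (h1.exc a), ?_⟩
        rw [Pool.Agent.TH167.SH.inter_eq, h1.neg a]
        omega
      · right
        push Not at hN
        have hN1 : N = fun _ => 1 := by
          funext a
          have := h1.pos a
          have := hN a
          omega
        subst hN1
        refine ⟨d', w', k, C, e, u, d1, w1, Pool.Agent.TH167.SH.decomp_iff.2 h1,
          Pool.Agent.TH167.SH.chain_conv h2, h3, ?_, special_of_ne.2 h4, h6⟩
        unfold hZero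
        rw [Pool.Agent.TH167.SH.sys_eq, Pool.Agent.TH167.SH.sys_eq, h5]

end Pool.Agent.Results.MP_70e04f_ag.CompositionClosure
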