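import Mathlib
import Pool.Agent.H15.HG.Fill36
import Pool.Agent.H15.HG.Regular

set_option autoImplicit false

/-!
# The SHGH conjecture in every degree for thirty-six or more groups of points, and the closure of the
# regular vectors of multiplicities under composition

General points of the complex projective plane. A multiplicity `w` imposes `w (w + 1) / 2` conditions.

* `Regular` is the smallest class of multisets of multiplicities which contains the basic ones
  (multiplicities `m`, `m + 1` on `k ≥ 36` points or on `k = 1, 4, 9, 13, 16, 25` points and so on) and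
  is closed under composition: a point of multiplicity `b` or `b + 1` is replaced by a regular cluster
  whose number of conditions is between those of `b` and of `b + 1`. Regular vectors are special in no
  degree.
* The union of `r ≥ 36` groups whose numbers of conditions are between those of multiplicities `m` and
  `m + 1`, and of any number of simple points, is special in no degree if each group is regular, or
  non-special in the two degrees next to its critical one.
* Arbitrary small multiplicities may be added.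
-/

namespace Pool.Agent.Results.MP_70e04f_ag.ThirtySixGroups

open MvPolynomial Pool.Agent.H15.HG

/-- Forms of degree `d` vanishing to order at least `w i` at the points `(P i 0 : P i 1 : 1)`. -/
noncomputable def forms {n : ℕ} (P : Fin n → Fin 2 → ℂ) (d : ℕ) (w : Fin n → ℕ) :
    Submodule ℂ (MvPolynomial (Fin 3) ℂ) :=
  homogeneousSubmodule (Fin 3) ℂ d ⊓
    Submodule.restrictScalars ℂ
      (⨅ i : Fin n, (Ideal.span {X 0 - C (P i 0) * X 2, X 1 - C (P i 1) * X 2} :
        Ideal (MvPolynomial (Fin 3) ℂ)) ^ (w i))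

/-- `h⁰(d H - ∑ w i E i) = max (0, χ(d H - ∑ w i E i))` on the blow-up of the plane at the points
`P`. -/
def Expected {n : ℕ} (P : Fin n → Fin 2 → ℂ) (d : ℕ) (w : Fin n → ℕ) : Prop :=
  (Module.finrank ℂ ↥(forms P d w) : ℤ) =
    max 0 (((d + 2).choose 2 : ℤ) - ∑ i, ((w i + 1).choose 2 : ℤ))

/-- For points `P` of a nonempty open set (the complement of a hypersurface `F = 0` of the space of
all `P`), `h⁰ = max (0, χ)` in degree `d`. -/
def NonSpecial {n : ℕ} (d : ℕ) (w : Fin n → ℕ) : Prop :=
  ∃ F : MvPolynomial (Fin n × Fin 2) ℂ, F ≠ 0 ∧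
    ∀ P : Fin n → Fin 2 → ℂ, eval (fun ij : Fin n × Fin 2 => P ij.1 ij.2) F ≠ 0 → Expected P d w

/-- For points `P` of a nonempty open set (the complement of a hypersurface `F = 0` of the space of
all `P`), `h⁰ = max (0, χ)` for every degree `d`. -/
def EveryDegree {n : ℕ} (w : Fin n → ℕ) : Prop :=
  ∃ F : MvPolynomial (Fin n × Fin 2) ℂ, F ≠ 0 ∧
    ∀ P : Fin n → Fin 2 → ℂ, eval (fun ij : Fin n × Fin 2 => P ij.1 ij.2) F ≠ 0 →
      ∀ d : ℕ, Expected P d w

/-- The multiset of the multiplicities of the points of the group `j`. -/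
def group {n r : ℕ} (w : Fin n → ℕ) (g : Fin n → Fin r) (j : Fin r) : Multiset ℕ :=
  (Finset.univ.filter fun i => g i = j).val.map w

/-- The system which consists of the points of the group `j` (the others get the multiplicity `0`). -/
def groupVec {n r : ℕ} (w : Fin n → ℕ) (g : Fin n → Fin r) (j : Fin r) : Fin n → ℕ :=
  fun i => if g i = j then w i else 0

/-- The group `j` is regular, or non-special in the degrees `t - 1` and `t`, where `t` is its level, that
is the number of conditions is at least `t (t + 1) / 2` and less than `(t + 1) (t + 2) / 2`. -/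
def Fine {n r : ℕ} (w : Fin n → ℕ) (g : Fin n → Fin r) (j : Fin r) : Prop :=
  Regular (group w g j) ∨
  ∀ t, (t + 1).choose 2 ≤ conditions (group w g j) → conditions (group w g j) < (t + 2).choose 2 →
    NonSpecial (t - 1) (groupVec w g j) ∧ NonSpecial t (groupVec w g j)

open Pool.Agent.W71.NN Pool.Agent.TH641.UM Pool.Agent.TH545.SD

theorem ns_of {n d : ℕ} {w : Fin n → ℕ} (h : NonSpecial d w) : Ns d (ms w) := by
  obtain ⟨F, hF, hF'⟩ := h
  refine ⟨GD_of_open (K := ℂ) ⟨F, hF, fun P hP => ?_⟩⟩
  have h2 := hF' P hP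
  unfold Expected forms at h2
  unfold Pool.Agent.H932R3.ExpDim
  have e : ∑ i, ((w i + 1).choose 2 : ℤ) = ((∑ i, (w i + 1).choose 2 : ℕ) : ℤ) := by
    push_cast
    rfl
  rw [e] at h2
  omega

theorem expected_of {n d : ℕ} {w : Fin n → ℕ} {P : Fin n → Fin 2 → ℂ}
    (h : Pool.Agent.H932R3.ExpDim ℂ w P d) : Expected P d w := by
  unfold Pool.Agent.H932R3.ExpDim at h
  unfold Expected forms
  rw [h]
  have e : ∑ i, ((w i + 1).choose 2 : ℤ) = ((∑ i, (w i + 1).choose 2 : ℕ) : ℤ) := by
    push_cast
    rfl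
  rw [e]
  omega

theorem every_of {n : ℕ} {w : Fin n → ℕ} (h : Good (ms w)) : EveryDegree w := by
  obtain ⟨F, hF, hF'⟩ := Gd.expDim h.out
  refine ⟨F.map (algebraMap ℚ ℂ), Pool.Agent.H932R3.map_ne_zero_of hF, fun P hP d => ?_⟩
  rw [MvPolynomial.eval_map] at hP
  exact expected_of (hF' (L := ℂ) P hP d)

theorem ms_eq_map {n : ℕ} (w : Fin n → ℕ) : (Finset.univ : Finset (Fin n)).val.map w = ms w := by
  rw [Pool.Agent.Y205.AV.ms_pos]

theorem group_eq {n r : ℕ} (w : Fin n → ℕ) (g : Fin n → Fin r) (j : Fin r) :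
    group w g j = ∑ i ∈ Finset.univ.filter (fun i => g i = j), ({w i} : Multiset ℕ) := by
  unfold group
  exact (W71.NN.sum_single _ w).symm

theorem co_grp {n r : ℕ} (w : Fin n → ℕ) (g : Fin n → Fin r) (j : Fin r) :
    conditions (group w g j) = ∑ i, (groupVec w g j i + 1).choose 2 := by
  rw [group_eq]
  exact co_group w g j

theorem ns_grp {n r : ℕ} {w : Fin n → ℕ} {g : Fin n → Fin r} {j : Fin r} {d : ℕ}
    (h : NonSpecial d (groupVec w g j)) : Ns d (group w g j) := by
  rw [group_eq]
  exact (Ns_group w g j).1 (ns_of h)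

theorem sum_grp {n r : ℕ} (w : Fin n → ℕ) (g : Fin n → Fin r) : ∑ j, group w g j = ms w := by
  rw [← sum_groups w g]
  exact Finset.sum_congr rfl fun j _ => group_eq w g j

theorem fine_ns {n r : ℕ} {w : Fin n → ℕ} {g : Fin n → Fin r} {j : Fin r} (h : Fine w g j) (t : ℕ)
    (h1 : (t + 1).choose 2 ≤ co (group w g j)) (h2 : co (group w g j) < (t + 2).choose 2) :
    Ns (t - 1) (group w g j) ∧ Ns t (group w g j) := by
  rcases h with h | h
  · have hg := good_of_regular h
    exact ⟨hg.ns _, hg.ns _⟩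
  · exact ⟨ns_grp (h t h1 h2).1, ns_grp (h t h1 h2).2⟩

theorem ms_append {n k : ℕ} (w : Fin n → ℕ) (u : Fin k → ℕ) : ms (Fin.append w u) = ms w + ms u := by
  unfold ms
  rw [Fin.sum_univ_add]
  simp

/-- groups of nearly the same number of conditions -/
theorem good_groups36 {r m s : ℕ} (C : Fin r → Multiset ℕ) (hm : 1 ≤ m) (hB : H15.HG.Base r m s)
    (hC : ∀ j t, (t + 1).choose 2 ≤ co (C j) → co (C j) < (t + 2).choose 2 →
      Ns (t - 1) (C j) ∧ Ns t (C j)) (lo : ∀ j, (m + 1).choose 2 ≤ co (C j))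
    (hi : ∀ j, co (C j) ≤ (m + s + 1).choose 2) (p : ℕ) : Good (∑ j, C j + p • {1}) := by
  choose t ht1 ht2 ht3 using fun j => exists_level (lo j)
  refine good_of_all fun d => ?_
  refine Ns_compose C t (fun j => by have := ht1 j; omega) (fun j => (hC j _ (ht2 j) (ht3 j)).1)
    (fun j => (hC j _ (ht2 j) (ht3 j)).2) ht2 (fun j => (ht3 j).le) _ fun x hx => ?_
  refine Ns.simple (Good.ns (good_base36 hm (s := s) (fun y hy => ?_) ?_) d) p
  · obtain ⟨j, -, hj⟩ : ∃ j ∈ Finset.univ, y ∈ ({x j} : Multiset ℕ) := by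
      unfold ms at hy
      rwa [Multiset.mem_sum] at hy
    rw [Multiset.mem_singleton] at hj
    subst hj
    have g1 := ht1 j
    have g2 := ht2 j
    have g3 := hi j
    rcases hx j with ⟨h1, -⟩ | ⟨h1, h2⟩
    · rw [h1]
      refine ⟨g1, ?_⟩
      by_contra hcon
      have g4 := choose_lt' (show m + s < t j by omega)
      omega
    · rw [h1]
      refine ⟨by omega, ?_⟩
      by_contra hcon
      have g4 := choose_mono' (show m + s ≤ t j by omega)
      omega
  · rw [Pool.Agent.TH2.NU.ms_card, Fintype.card_fin]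
    exact hB

/-- **Groups of nearly the same number of conditions.** -/
theorem groups {n r m s : ℕ} (w : Fin n → ℕ) (g : Fin n → Fin r) (p : ℕ) (hm : 1 ≤ m)
    (hB : H15.HG.Base r m s) (hG : ∀ j, Fine w g j)
    (hc : ∀ j, (m + 1).choose 2 ≤ conditions (group w g j) ∧
      conditions (group w g j) ≤ (m + s + 1).choose 2) :
    EveryDegree (Fin.append w fun _ : Fin p => 1) := by
  apply every_of
  rw [ms_append, ← sum_grp w g, ms_fin]
  exact good_groups36 (group w g) hm hB (fun j t h1 h2 => fine_ns (hG j) t h1 h2)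
    (fun j => (hc j).1) (fun j => (hc j).2) p

theorem cond_ms {n : ℕ} (w : Fin n → ℕ) : co (ms w) = ∑ i, (w i + 1).choose 2 := co_ms w

theorem sum_co_grp {n r : ℕ} (w : Fin n → ℕ) (g : Fin n → Fin r) :
    ∑ j, co (group w g j) = ∑ i, (w i + 1).choose 2 := by
  have h1 : ∀ j, co (group w g j) = ∑ i ∈ Finset.univ.filter (fun i => g i = j), (w i + 1).choose 2 := by
    intro j
    exact co_map _ w
  rw [Finset.sum_congr rfl fun j _ => h1 j]
  exact Finset.sum_fiberwise Finset.univ g fun i => (w i + 1).choose 2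

/-- drop the zeros -/
theorem every_zeros {n q p : ℕ} {w : Fin n → ℕ} {u : Fin q → ℕ} {S : Multiset ℕ} {z : ℕ}
    (hu : ms u = S + z • {0}) (h : Good (ms w + S + p • {1})) :
    EveryDegree (Fin.append (Fin.append w u) fun _ : Fin p => 1) := by
  apply every_of
  rw [ms_append, ms_append, ms_fin, hu]
  have e : ms w + (S + z • ({0} : Multiset ℕ)) + p • {1} = (ms w + S + p • {1}) + z • {0} := by abel
  rw [e]
  exact good_of_all fun d => Ns_zeros.2 (h.ns d)

/-- **Small multiplicities are free.** -/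
theorem fill {n r q p M h : ℕ} (w : Fin n → ℕ) (g : Fin n → Fin r) (u : Fin q → ℕ) (h1 : 1 ≤ h)
    (hh : h * (h + 1) ≤ 2 * (M + 1)) (hb : 25000 * (h + 1) ^ 3 ≤ M * (M + 1))
    (hG : ∀ j, Fine w g j)
    (hc : ∀ j, (M + 1).choose 2 ≤ conditions (group w g j) ∧
      conditions (group w g j) ≤ (M + 2).choose 2) (hu : ∀ i, u i ≤ h)
    (hK : ((M + 1).choose 2 ≤ p ∧ 36 * (M + 2).choose 2 ≤
        ∑ i, (w i + 1).choose 2 + ∑ i, (u i + 1).choose 2 + p) ∨
      (3 * (h * (h + 1)) ≤ 2 * (M + 1) ∧ (M + 1) ^ 3 ≤ ∑ i, (u i + 1).choose 2)) :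
    EveryDegree (Fin.append (Fin.append w u) fun _ : Fin p => 1) := by
  obtain ⟨S, hS1, hS2, hS3, -⟩ := ms_nonzero u
  refine every_zeros hS1 ?_
  have hS : ∀ y ∈ S, 1 ≤ y ∧ y ≤ h := fun y hy => by
    obtain ⟨i, rfl, hi⟩ := hS2 y hy
    have := hu i
    omega
  rcases hK with ⟨hp, hK⟩ | ⟨h3, hK⟩
  · have h2 := good_fill_groups36 (M := M) (p := p) (group w g) S h1 hh hb
      (fun j t h1 h2 => fine_ns (hG j) t h1 h2) (fun j => (hc j).1) (fun j => (hc j).2)
      hS hp (by
        rw [sum_co_grp, hS3]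
        exact hK)
    rw [sum_grp, ← add_assoc] at h2
    exact h2
  · have h2 := good_many_groups36 (M := M) (group w g) S h1 h3 hb
      (fun j t h1 h2 => fine_ns (hG j) t h1 h2) (fun j => (hc j).1) (fun j => (hc j).2)
      hS (by rw [hS3]; exact hK)
    rw [sum_grp] at h2
    exact good_of_all fun d => Ns.simple (h2.ns d) p

/-- (1) Regular vectors are special in no degree. (2) The union of `r` fine groups whose numbers of
conditions are between those of multiplicities `m` and `m + s`, `Base r m s`, and of any number of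
simple points is special in no degree. (3) Small multiplicities are free. -/
theorem result :
    (∀ (n : ℕ) (w : Fin n → ℕ), Regular ((Finset.univ : Finset (Fin n)).val.map w) →
      EveryDegree w) ∧
    (∀ (n r m s p : ℕ) (w : Fin n → ℕ) (g : Fin n → Fin r), 1 ≤ m → H15.HG.Base r m s →
      (∀ j, Fine w g j) →
      (∀ j, (m + 1).choose 2 ≤ conditions (group w g j) ∧
        conditions (group w g j) ≤ (m + s + 1).choose 2) →
      EveryDegree (Fin.append w fun _ : Fin p => 1)) ∧
    (∀ (n r q p M h : ℕ) (w : Fin n → ℕ) (g : Fin n → Fin r) (u : Fin q → ℕ), 1 ≤ h →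
      h * (h + 1) ≤ 2 * (M + 1) → 25000 * (h + 1) ^ 3 ≤ M * (M + 1) → (∀ j, Fine w g j) →
      (∀ j, (M + 1).choose 2 ≤ conditions (group w g j) ∧
        conditions (group w g j) ≤ (M + 2).choose 2) →
      (∀ i, u i ≤ h) →
      (((M + 1).choose 2 ≤ p ∧ 36 * (M + 2).choose 2 ≤
          ∑ i, (w i + 1).choose 2 + ∑ i, (u i + 1).choose 2 + p) ∨
        (3 * (h * (h + 1)) ≤ 2 * (M + 1) ∧ (M + 1) ^ 3 ≤ ∑ i, (u i + 1).choose 2)) →
      EveryDegree (Fin.append (Fin.append w u) fun _ : Fin p => 1)) :=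
  ⟨fun n w h => every_of (by rw [← ms_eq_map]; exact good_of_regular h),
    fun _ _ _ _ p w g hm hB hG hc => groups w g p hm hB hG hc,
    fun _ _ _ _ _ _ w g u h1 hh hb hG hc hu hK => fill w g u h1 hh hb hG hc hu hK⟩

end Pool.Agent.Results.MP_70e04f_ag.ThirtySixGroups
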